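import Pool.Agent.H.MP_f7abb8_nt.Cnt18.Final

/-!
# There are at most `C x^(1/3+ε)` nonunitary perfect numbers up to `x`

A number `n > 0` is nonunitary perfect if it is the sum of its divisors `d` with `gcd(d, n/d) > 1`.
For every `ε > 0` there is a constant `C` such that for all `x ≥ 1` at most `C x^(1/3+ε)` of the numbers
`1, ..., x` are nonunitary perfect.
-/

set_option autoImplicit false

namespace Pool.Agent.Results.MP_f7abb8_nt.CountingBound

theorem result (ε : ℝ) (hε : 0 < ε) : ∃ C : ℝ, ∀ x : ℕ, 1 ≤ x →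
    (((Finset.Icc 1 x).filter
      (fun n => ∑ d ∈ n.divisors.filter (fun d => 1 < Nat.gcd d (n / d)), d = n)).card : ℝ) ≤
      C * (x : ℝ) ^ (1 / 3 + ε) := by
  obtain ⟨C, _, hC⟩ := Pool.MP_f7abb8_nt.Cnt18.NP_count ε hε
  exact ⟨C, fun x hx => hC x hx⟩

end Pool.Agent.Results.MP_f7abb8_nt.CountingBound
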