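import Pool.Agent.H.MP_f7abb8_nt.EF.Grn

/-!
# Even nonunitary perfect numbers: an Euler type form

Let `n` be even and nonunitary perfect (equal to the sum of its divisors `d` with `gcd(d, n/d) > 1`). Then
`n = 2 ^ (p + 1) * (2 ^ p - 1)` with `2 ^ p - 1` prime, or `n = 12 * r ^ 2` with `r > 1` prime to `210`, or the smallest
odd prime factor `q` of `n` has an even exponent. In the last case let `2 ^ a` be the power of `2` in `n`, and `k` the
number of odd primes dividing `n`. Then `a = 1` or `a` is even, `2 ^ a < q < k * 2 ^ a`, and the odd primes `p` which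
divide `n` to an odd power exist, are at least `2 q - 1`, and the product of the `p + 1` over these primes divides `n`.
-/

set_option autoImplicit false

namespace Pool.Agent.Results.MP_f7abb8_nt.EulerForm

theorem result (n : ℕ) (hn : 0 < n) (heven : Even n)
    (hperf : ∑ d ∈ n.divisors.filter (fun d => 1 < Nat.gcd d (n / d)), d = n) :
    (∃ p : ℕ, Nat.Prime (2 ^ p - 1) ∧ n = 2 ^ (p + 1) * (2 ^ p - 1)) ∨
    (∃ r : ℕ, 1 < r ∧ Nat.Coprime r 210 ∧ n = 12 * r ^ 2) ∨
    ∃ a q : ℕ, (a = 1 ∨ Even a) ∧ 2 ^ a ∣ n ∧ ¬ 2 ^ (a + 1) ∣ n ∧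
      q.Prime ∧ q ∣ n ∧ (∀ p : ℕ, p.Prime → p ∣ n → p = 2 ∨ q ≤ p) ∧
      Even (n.factorization q) ∧
      2 ^ a < q ∧ q < (n.primeFactors.filter (fun p => p ≠ 2)).card * 2 ^ a ∧
      (n.primeFactors.filter (fun p => p ≠ 2 ∧ Odd (n.factorization p))).Nonempty ∧
      (∏ p ∈ n.primeFactors.filter (fun p => p ≠ 2 ∧ Odd (n.factorization p)), (p + 1)) ∣ n ∧
      ∀ p ∈ n.primeFactors.filter (fun p => p ≠ 2 ∧ Odd (n.factorization p)), 2 * q ≤ p + 1 :=
  Pool.Agent.H.MP_f7abb8_nt.EF.main' n hn heven hperf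

end Pool.Agent.Results.MP_f7abb8_nt.EulerForm
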