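import Pool.Agent.H.MP_f7abb8_nt.Bound.Main3

/-!
# Nonunitary perfect numbers with a given number of prime factors

Let `n > 0` be nonunitary perfect (equal to the sum of its divisors `d` with `gcd(d, n/d) > 1`), with
exactly `k` distinct prime factors, and let `2^a` be the exact power of `2` dividing `n`.  If `4 ∤ n`, or
if no odd prime has in `n` an exponent congruent to `3` modulo `4`, then
`n < (6 · 2^a · k²)^(4^k)`.
-/

set_option autoImplicit false

namespace Pool.Agent.Results.MP_f7abb8_nt.PrimeCountBound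

theorem result (n : ℕ) (hn : 0 < n)
    (hperf : ∑ d ∈ n.divisors.filter (fun d => 1 < Nat.gcd d (n / d)), d = n)
    (h : ¬ 4 ∣ n ∨ ∀ p ∈ n.primeFactors, p ≠ 2 → n.factorization p % 4 ≠ 3) :
    n < (6 * 2 ^ n.factorization 2 * n.primeFactors.card ^ 2) ^ (4 ^ n.primeFactors.card) :=
  Pool.MP_f7abb8_nt.Bound.final n hn hperf h

end Pool.Agent.Results.MP_f7abb8_nt.PrimeCountBound
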