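import Pool.Agent.H.MP_f7abb8_nt.Main

/-!
# Nonunitary perfect numbers with at most two primes whose square divides `n`

If `n > 0` is equal to the sum of its divisors `d` with `gcd(d, n/d) > 1`, and at most two primes
`p` satisfy `p ^ 2 ∣ n`, then `n = 2 ^ (p + 1) * (2 ^ p - 1)` for some `p` with `2 ^ p - 1` prime.
The number of primes which divide `n` exactly once is not restricted.
-/

set_option autoImplicit false

namespace Pool.Agent.Results.MP_f7abb8_nt.TwoSquareFactors

theorem result (n : ℕ) (hn : 0 < n)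
    (hperf : ∑ d ∈ n.divisors.filter (fun d => 1 < Nat.gcd d (n / d)), d = n)
    (hcard : (n.primeFactors.filter (fun p => p ^ 2 ∣ n)).card ≤ 2) :
    ∃ p : ℕ, Nat.Prime (2 ^ p - 1) ∧ n = 2 ^ (p + 1) * (2 ^ p - 1) :=
  Pool.MP_f7abb8_nt.NU.main n hn hperf hcard

end Pool.Agent.Results.MP_f7abb8_nt.TwoSquareFactors
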